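import Mathlib

/-!
# A tiling of the plane by pairwise non-similar integer-sided triangles

Each quadrant is cut by a zigzag: put `y 0 = 0`, `y 1 = s` and `y (n + 1) = f (y n)`, where
`f x = (x ^ 2 - 1) / 2` for odd `x` and `f x = x ^ 2 / 4 - 1` for `x` divisible by four, and place the
point `Q n` at distance `y n` from the origin, alternately on the two half-axes bounding the quadrant.
The tiles are the triangles `Q n, Q (n + 1), Q (n + 2)`.  Their sides are integers, since
`y n ^ 2 + y (n + 1) ^ 2` is a square.  The angle at `Q n` is a right angle for `n = 0` and is obtuse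
with tangent `- y (n + 1) / y n` for `n ≥ 1`; since `y n` and `y (n + 1)` are coprime this angle
determines `y n`.  The four quadrants use the starts 5, 7, 9, 11, whose orbits under the injective map
`f` are disjoint.
-/

set_option autoImplicit false

namespace Pool.Agent.Results.MP_0d7d47_co.IntegerSided

/-- The Euclidean plane. -/
abbrev Plane : Type := EuclideanSpace ℝ (Fin 2)

/-- The closed triangle with the three given vertices. -/
def tri (V : Fin 3 → Plane) : Set Plane := convexHull ℝ (Set.range V)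

/-- Two triangles, given by their vertices, are similar: for some matching of the vertices the side
lengths are proportional. -/
def SimilarTri (V W : Fin 3 → Plane) : Prop :=
  ∃ (σ : Equiv.Perm (Fin 3)) (r : ℝ), 0 < r ∧
    ∀ a b, dist (W (σ a)) (W (σ b)) = r * dist (V a) (V b)

/-! ### Arithmetic -/

/-- The next distance of the zigzag. -/
def f (x : ℕ) : ℕ := if x % 2 = 1 then (x ^ 2 - 1) / 2 else x ^ 2 / 4 - 1

/-- The admissible distances. -/
def G (x : ℕ) : Prop := 5 ≤ x ∧ (x % 2 = 1 ∨ x % 4 = 0)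

theorem f_odd (k : ℕ) : f (2 * k + 1) = 2 * k * (k + 1) := by
  have h1 : (2 * k + 1) % 2 = 1 := by omega
  have h2 : (2 * k + 1) ^ 2 - 1 = 2 * (2 * k * (k + 1)) := by
    have : (2 * k + 1) ^ 2 = 2 * (2 * k * (k + 1)) + 1 := by ring
    omega
  rw [f, if_pos h1, h2]
  simp

theorem f_four (k : ℕ) : f (4 * k) = 4 * k ^ 2 - 1 := by
  have h1 : ¬ (4 * k) % 2 = 1 := by omega
  have h2 : (4 * k) ^ 2 = 4 * (4 * k ^ 2) := by ring
  rw [f, if_neg h1, h2]
  simp

theorem G_cases {x : ℕ} (h : G x) : (∃ k, 2 ≤ k ∧ x = 2 * k + 1) ∨ (∃ k, 2 ≤ k ∧ x = 4 * k) := by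
  obtain ⟨h5, h | h⟩ := h
  · left; exact ⟨x / 2, by omega, by omega⟩
  · right; exact ⟨x / 4, by omega, by omega⟩

theorem f_ge {x : ℕ} (h : G x) : 12 ≤ f x := by
  rcases G_cases h with ⟨k, hk, rfl⟩ | ⟨k, hk, rfl⟩
  · rw [f_odd]; nlinarith
  · rw [f_four]
    have : 16 ≤ 4 * k ^ 2 := by nlinarith
    omega

theorem lt_f {x : ℕ} (h : G x) : x < f x := by
  rcases G_cases h with ⟨k, hk, rfl⟩ | ⟨k, hk, rfl⟩
  · rw [f_odd]; nlinarith
  · rw [f_four]
    have : 4 * k + 2 ≤ 4 * k ^ 2 := by nlinarith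
    omega

theorem G_f {x : ℕ} (h : G x) : G (f x) := by
  refine ⟨by have := f_ge h; omega, ?_⟩
  rcases G_cases h with ⟨k, hk, rfl⟩ | ⟨k, hk, rfl⟩
  · right
    rw [f_odd]
    obtain ⟨m, hm⟩ := Nat.even_mul_succ_self k
    have : 2 * k * (k + 1) = 4 * m := by
      have : 2 * k * (k + 1) = 2 * (k * (k + 1)) := by ring
      omega
    omega
  · left
    rw [f_four]
    have : 1 ≤ k ^ 2 := Nat.one_le_pow _ _ (by omega)
    omega

theorem f_hyp {x : ℕ} (h : G x) : ∃ c, x ^ 2 + (f x) ^ 2 = c ^ 2 := by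
  rcases G_cases h with ⟨k, hk, rfl⟩ | ⟨k, hk, rfl⟩
  · refine ⟨2 * k * (k + 1) + 1, ?_⟩
    rw [f_odd]; ring
  · refine ⟨4 * k ^ 2 + 1, ?_⟩
    rw [f_four]
    have h1 : 1 ≤ 4 * k ^ 2 := by nlinarith
    obtain ⟨m, hm⟩ := Nat.exists_eq_add_of_le h1
    have h2 : 4 * k ^ 2 - 1 = m := by omega
    rw [h2, hm]
    have h3 : (4 * k) ^ 2 = 4 * (1 + m) := by rw [← hm]; ring
    rw [h3]; ring

theorem coprime_f {x : ℕ} (h : G x) : Nat.Coprime x (f x) := by
  rcases G_cases h with ⟨k, hk, rfl⟩ | ⟨k, hk, rfl⟩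
  · rw [f_odd]
    apply Nat.Coprime.mul_right
    · apply Nat.Coprime.mul_right
      · rw [Nat.coprime_two_right]; exact ⟨k, rfl⟩
      · have : Nat.Coprime (1 + k * 2) k := by
          rw [Nat.coprime_add_mul_left_left]; exact Nat.coprime_one_left k
        rwa [show 1 + k * 2 = 2 * k + 1 by ring] at this
    · have e : 2 * k + 1 = k + (k + 1) * 1 := by ring
      rw [e, Nat.coprime_add_mul_left_left]
      exact (Nat.coprime_self_add_right).2 (Nat.coprime_one_right k)
  · rw [f_four]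
    have h1 : 1 ≤ 4 * k ^ 2 := by nlinarith
    obtain ⟨m, hm⟩ := Nat.exists_eq_add_of_le h1
    have h2 : 4 * k ^ 2 - 1 = m := by omega
    rw [h2]
    have h3 : Nat.Coprime (4 * k ^ 2) m := by
      rw [hm]
      have : Nat.Coprime (1 + m * 1) m := by
        rw [Nat.coprime_add_mul_left_left]; exact Nat.coprime_one_left m
      simpa using this
    have h4 : 4 * k ∣ 4 * k ^ 2 := ⟨k, by ring⟩
    exact Nat.Coprime.coprime_dvd_left h4 h3

theorem ratio_inj {x x' : ℕ} (h : G x) (h' : G x') (he : x' * f x = x * f x') : x = x' := by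
  apply Nat.dvd_antisymm
  · have : x ∣ x' * f x := ⟨f x', he⟩
    exact (coprime_f h).dvd_of_dvd_mul_right this
  · have : x' ∣ x * f x' := ⟨f x, he.symm⟩
    exact (coprime_f h').dvd_of_dvd_mul_right this

theorem f_inj {x x' : ℕ} (h : G x) (h' : G x') (he : f x = f x') : x = x' := by
  rcases G_cases h with ⟨k, hk, rfl⟩ | ⟨k, hk, rfl⟩ <;>
    rcases G_cases h' with ⟨l, hl, rfl⟩ | ⟨l, hl, rfl⟩
  · rw [f_odd, f_odd] at he
    rcases lt_trichotomy k l with hlt | rfl | hlt
    · nlinarith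
    · rfl
    · nlinarith
  · exfalso
    rw [f_odd, f_four] at he
    have : 1 ≤ l ^ 2 := Nat.one_le_pow _ _ (by omega)
    have e : 2 * k * (k + 1) = 2 * (k * (k + 1)) := by ring
    omega
  · exfalso
    rw [f_odd, f_four] at he
    have : 1 ≤ k ^ 2 := Nat.one_le_pow _ _ (by omega)
    have e : 2 * l * (l + 1) = 2 * (l * (l + 1)) := by ring
    omega
  · rw [f_four, f_four] at he
    have h1 : 1 ≤ k ^ 2 := Nat.one_le_pow _ _ (by omega)
    have h2 : 1 ≤ l ^ 2 := Nat.one_le_pow _ _ (by omega)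
    have h3 : k ^ 2 = l ^ 2 := by omega
    have h4 : k = l := Nat.pow_left_injective (n := 2) (by norm_num) h3
    rw [h4]

/-- The distances from the origin of the points of the zigzag with start `s`. -/
def y (s : ℕ) : ℕ → ℕ
  | 0 => 0
  | 1 => s
  | n + 2 => f (y s (n + 1))

theorem y_zero (s : ℕ) : y s 0 = 0 := rfl
theorem y_one (s : ℕ) : y s 1 = s := rfl
theorem y_succ (s n : ℕ) : y s (n + 2) = f (y s (n + 1)) := rfl

theorem G_y {s : ℕ} (hs : G s) (n : ℕ) : G (y s (n + 1)) := by
  induction n with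
  | zero => exact hs
  | succ n ih => exact G_f ih

theorem y_lt {s : ℕ} (hs : G s) (n : ℕ) : y s n < y s (n + 1) := by
  cases n with
  | zero => have := hs.1; rw [y_zero, y_one]; omega
  | succ n => exact lt_f (G_y hs n)

theorem le_y {s : ℕ} (hs : G s) (n : ℕ) : n ≤ y s n := by
  induction n with
  | zero => exact Nat.zero_le _
  | succ n ih => have := y_lt hs n; omega

theorem y_hyp {s : ℕ} (hs : G s) (n : ℕ) : ∃ c, (y s n) ^ 2 + (y s (n + 1)) ^ 2 = c ^ 2 := by
  cases n with
  | zero => exact ⟨s, by rw [y_zero, y_one]; ring⟩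
  | succ n => exact f_hyp (G_y hs n)

theorem orbit_inj {s s' : ℕ} (hs : G s) (hs' : G s') (h12 : s < 12) (h12' : s' < 12) :
    ∀ n m : ℕ, y s (n + 1) = y s' (m + 1) → s = s' ∧ n = m := by
  intro n
  induction n with
  | zero =>
    intro m h
    cases m with
    | zero => exact ⟨h, rfl⟩
    | succ m =>
      exfalso
      have h1 := f_ge (G_y hs' m)
      rw [y_one, y_succ] at h
      omega
  | succ n ih =>
    intro m h
    cases m with
    | zero =>
      exfalso
      have h1 := f_ge (G_y hs n)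
      rw [y_one, y_succ] at h
      omega
    | succ m =>
      rw [y_succ, y_succ] at h
      obtain ⟨h1, h2⟩ := ih m (f_inj (G_y hs n) (G_y hs' m) h)
      exact ⟨h1, by omega⟩

/-- The starts in the four quadrants: 5, 7, 9, 11. -/
def start (q : Bool × Bool) : ℕ := 5 + (if q.1 then 2 else 0) + (if q.2 then 4 else 0)

theorem G_start (q : Bool × Bool) : G (start q) := by
  obtain ⟨a, b⟩ := q
  cases a <;> cases b <;> simp [G, start]

theorem start_lt (q : Bool × Bool) : start q < 12 := by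
  obtain ⟨a, b⟩ := q
  cases a <;> cases b <;> simp [start]

theorem start_inj {q q' : Bool × Bool} (h : start q = start q') : q = q' := by
  obtain ⟨a, b⟩ := q
  obtain ⟨a', b'⟩ := q'
  cases a <;> cases b <;> cases a' <;> cases b' <;> simp_all [start]

/-! ### The zigzag -/

/-- The point with coordinates `(u, v)`. -/
noncomputable def pt (u v : ℝ) : Plane := !₂[u, v]

@[simp] theorem pt_zero (u v : ℝ) : pt u v 0 = u := by simp [pt]
@[simp] theorem pt_one (u v : ℝ) : pt u v 1 = v := by simp [pt]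

theorem ext2 {z w : Plane} (h0 : z 0 = w 0) (h1 : z 1 = w 1) : z = w := by
  ext i
  fin_cases i
  · exact h0
  · exact h1

theorem dist_sq (z w : Plane) : dist z w ^ 2 = (z 0 - w 0) ^ 2 + (z 1 - w 1) ^ 2 := by
  rw [EuclideanSpace.dist_eq, Real.sq_sqrt (by positivity)]
  simp [Real.dist_eq]

/-- The sign of a half-axis. -/
noncomputable def sg (b : Bool) : ℝ := if b then -1 else 1

theorem sg_sq (b : Bool) : sg b * sg b = 1 := by cases b <;> simp [sg]

theorem sg_cases (b : Bool) : sg b = 1 ∨ sg b = -1 := by cases b <;> simp [sg]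

/-- The coordinate of `z` along the half-axis of the point number `n` of the zigzag. -/
noncomputable def ca (q : Bool × Bool) (n : ℕ) (z : Plane) : ℝ :=
  if n % 2 = 0 then sg q.2 * z 1 else sg q.1 * z 0

theorem ca_add_two (q : Bool × Bool) (n : ℕ) (z : Plane) : ca q (n + 2) z = ca q n z := by
  simp [ca]

theorem ca_comb (q : Bool × Bool) (n : ℕ) (z w : Plane) (a b : ℝ) :
    ca q n (a • z + b • w) = a * ca q n z + b * ca q n w := by
  unfold ca
  split_ifs <;> simp <;> ring

theorem ca_ext (q : Bool × Bool) (n : ℕ) {z w : Plane} (h0 : ca q n z = ca q n w)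
    (h1 : ca q (n + 1) z = ca q (n + 1) w) : z = w := by
  have s1 : sg q.1 ≠ 0 := by rcases sg_cases q.1 with h | h <;> rw [h] <;> norm_num
  have s2 : sg q.2 ≠ 0 := by rcases sg_cases q.2 with h | h <;> rw [h] <;> norm_num
  unfold ca at h0 h1
  rcases Nat.mod_two_eq_zero_or_one n with hn | hn
  · have hn' : ¬ (n + 1) % 2 = 0 := by omega
    rw [if_pos hn, if_pos hn] at h0
    rw [if_neg hn', if_neg hn'] at h1
    exact ext2 (mul_left_cancel₀ s1 h1) (mul_left_cancel₀ s2 h0)
  · have hn' : (n + 1) % 2 = 0 := by omega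
    have hn2 : ¬ n % 2 = 0 := by omega
    rw [if_neg hn2, if_neg hn2] at h0
    rw [if_pos hn', if_pos hn'] at h1
    exact ext2 (mul_left_cancel₀ s1 h0) (mul_left_cancel₀ s2 h1)

theorem dist_ca (q : Bool × Bool) (n : ℕ) (z w : Plane) :
    dist z w ^ 2 = (ca q n z - ca q n w) ^ 2 + (ca q (n + 1) z - ca q (n + 1) w) ^ 2 := by
  rw [dist_sq]
  unfold ca
  have s1 := sg_sq q.1
  have s2 := sg_sq q.2
  rcases Nat.mod_two_eq_zero_or_one n with hn | hn
  · have hn' : ¬ (n + 1) % 2 = 0 := by omega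
    rw [if_pos hn, if_pos hn, if_neg hn', if_neg hn']
    linear_combination (-(z 0 - w 0) ^ 2) * s1 + (-(z 1 - w 1) ^ 2) * s2
  · have hn' : (n + 1) % 2 = 0 := by omega
    have hn2 : ¬ n % 2 = 0 := by omega
    rw [if_neg hn2, if_neg hn2, if_pos hn', if_pos hn']
    linear_combination (-(z 0 - w 0) ^ 2) * s1 + (-(z 1 - w 1) ^ 2) * s2

/-- The points of the zigzag in the quadrant `q`. -/
noncomputable def Q (q : Bool × Bool) (n : ℕ) : Plane :=
  if n % 2 = 0 then pt 0 (sg q.2 * y (start q) n) else pt (sg q.1 * y (start q) n) 0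

theorem ca_Q (q : Bool × Bool) (n : ℕ) : ca q n (Q q n) = y (start q) n := by
  have s1 := sg_sq q.1
  have s2 := sg_sq q.2
  unfold ca Q
  split_ifs
  · rw [pt_one]; linear_combination (y (start q) n : ℝ) * s2
  · rw [pt_zero]; linear_combination (y (start q) n : ℝ) * s1

theorem ca_Q_succ (q : Bool × Bool) (n : ℕ) : ca q (n + 1) (Q q n) = 0 := by
  unfold ca Q
  rcases Nat.mod_two_eq_zero_or_one n with hn | hn
  · have hn' : ¬ (n + 1) % 2 = 0 := by omega
    rw [if_pos hn, if_neg hn']; simp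
  · have hn' : (n + 1) % 2 = 0 := by omega
    have hn2 : ¬ n % 2 = 0 := by omega
    rw [if_neg hn2, if_pos hn']; simp

theorem ca_Q_prev (q : Bool × Bool) (n : ℕ) : ca q n (Q q (n + 1)) = 0 := by
  rw [← ca_add_two]; exact ca_Q_succ q (n + 1)

theorem ca_Q_two (q : Bool × Bool) (n : ℕ) : ca q n (Q q (n + 2)) = y (start q) (n + 2) := by
  rw [← ca_add_two]; exact ca_Q q (n + 2)

theorem ca_Q_two' (q : Bool × Bool) (n : ℕ) : ca q (n + 1) (Q q (n + 2)) = 0 :=
  ca_Q_prev q (n + 1)

/-- The vertices of the tiles. -/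
noncomputable def V (p : (Bool × Bool) × ℕ) (k : Fin 3) : Plane := Q p.1 (p.2 + k)

/-- The equation of the side from `Q n` to `Q (n + 1)`. -/
noncomputable def psi (q : Bool × Bool) (n : ℕ) (z : Plane) : ℝ :=
  ca q n z * y (start q) (n + 1) + ca q (n + 1) z * y (start q) n -
    y (start q) n * y (start q) (n + 1)

theorem psi_comb (q : Bool × Bool) (n : ℕ) (z w : Plane) {a b : ℝ} (h : a + b = 1) :
    psi q n (a • z + b • w) = a * psi q n z + b * psi q n w := by
  unfold psi
  rw [ca_comb, ca_comb]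
  have hb : b = 1 - a := by linarith
  subst hb
  ring

/-- The tile described by inequalities. -/
def reg (q : Bool × Bool) (n : ℕ) : Set Plane :=
  {z | 0 ≤ ca q n z ∧ 0 ≤ ca q (n + 1) z ∧ 0 ≤ psi q n z ∧ psi q (n + 1) z ≤ 0}

theorem convex_reg (q : Bool × Bool) (n : ℕ) : Convex ℝ (reg q n) := by
  rintro z ⟨h1, h2, h3, h4⟩ w ⟨k1, k2, k3, k4⟩ a b ha hb hab
  refine ⟨?_, ?_, ?_, ?_⟩
  · rw [ca_comb]; positivity
  · rw [ca_comb]; positivity
  · rw [psi_comb q n z w hab]; positivity
  · rw [psi_comb q (n + 1) z w hab]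
    have e1 := mul_nonneg ha (neg_nonneg.2 h4)
    have e2 := mul_nonneg hb (neg_nonneg.2 k4)
    linarith

theorem y_lt' (q : Bool × Bool) (n : ℕ) : (y (start q) n : ℝ) < y (start q) (n + 1) := by
  exact_mod_cast y_lt (G_start q) n

theorem y_pos (q : Bool × Bool) (n : ℕ) : (0 : ℝ) < y (start q) (n + 1) := by
  have := y_lt' q n
  have h0 : (0 : ℝ) ≤ y (start q) n := Nat.cast_nonneg _
  linarith

theorem y_nonneg (q : Bool × Bool) (n : ℕ) : (0 : ℝ) ≤ y (start q) n := Nat.cast_nonneg _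

theorem tri_eq (q : Bool × Bool) (n : ℕ) : tri (V (q, n)) = reg q n := by
  have l1 := y_lt' q n
  have l2 := y_lt' q (n + 1)
  have p1 := y_pos q n
  have p2 := y_pos q (n + 1)
  have p0 := y_nonneg q n
  apply Set.Subset.antisymm
  · apply convexHull_min _ (convex_reg q n)
    rintro _ ⟨k, rfl⟩
    fin_cases k
    · change Q q n ∈ reg q n
      refine ⟨?_, ?_, ?_, ?_⟩
      · rw [ca_Q]; exact p0
      · rw [ca_Q_succ]
      · rw [psi, ca_Q, ca_Q_succ]; linarith
      · rw [psi, ca_Q_succ, ca_add_two, ca_Q]; nlinarith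
    · change Q q (n + 1) ∈ reg q n
      refine ⟨?_, ?_, ?_, ?_⟩
      · rw [ca_Q_prev]
      · rw [ca_Q]; exact p1.le
      · rw [psi, ca_Q, ca_Q_prev]; linarith
      · rw [psi, ca_Q, ca_add_two, ca_Q_prev]; linarith
    · change Q q (n + 2) ∈ reg q n
      refine ⟨?_, ?_, ?_, ?_⟩
      · rw [ca_Q_two]; exact p2.le
      · rw [ca_Q_two']
      · rw [psi, ca_Q_two, ca_Q_two']; nlinarith
      · rw [psi, ca_Q_two', ca_add_two, ca_Q_two]; linarith
  · rintro z ⟨h1, h2, h3, h4⟩
    set D : ℝ := y (start q) (n + 1) * (y (start q) (n + 2) - y (start q) n) with hD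
    have hDpos : 0 < D := mul_pos p1 (by linarith)
    have hd2 : (y (start q) (n + 2) : ℝ) - y (start q) n ≠ 0 := by
      have : (y (start q) n : ℝ) < y (start q) (n + 2) := by linarith
      exact sub_ne_zero.2 this.ne'
    let w : Fin 3 → ℝ := ![-psi q (n + 1) z / D, ca q (n + 1) z / y (start q) (n + 1),
      psi q n z / D]
    have hw : ∀ k ∈ (Finset.univ : Finset (Fin 3)), 0 ≤ w k := by
      intro k _
      fin_cases k
      · exact div_nonneg (by linarith) hDpos.le
      · exact div_nonneg h2 p1.le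
      · exact div_nonneg h3 hDpos.le
    have hsum : ∑ k, w k = 1 := by
      rw [Fin.sum_univ_three]
      change -psi q (n + 1) z / D + ca q (n + 1) z / y (start q) (n + 1) + psi q n z / D = 1
      rw [hD, psi, psi, ca_add_two]
      field_simp
      ring
    have hz : z = ∑ k, w k • V (q, n) k := by
      rw [Fin.sum_univ_three]
      change z = (-psi q (n + 1) z / D) • Q q n + (ca q (n + 1) z / y (start q) (n + 1)) • Q q (n + 1)
        + (psi q n z / D) • Q q (n + 2)
      have key : ∀ (m : ℕ) (a b c : ℝ) (u v t : Plane), ca q m (a • u + b • v + c • t) =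
          a * ca q m u + b * ca q m v + c * ca q m t := by
        intro m a b c u v t
        have h := ca_comb q m (a • u + b • v) t 1 c
        rw [one_smul, ca_comb] at h
        rw [h]; ring
      apply ca_ext q n
      · rw [key, ca_Q, ca_Q_prev, ca_Q_two, hD, psi, psi, ca_add_two]
        field_simp
        ring
      · rw [key, ca_Q_succ, ca_Q, ca_Q_two']
        field_simp
        ring
    rw [hz]
    exact (convex_convexHull ℝ _).sum_mem hw hsum
      (fun k _ => subset_convexHull ℝ _ ⟨k, rfl⟩)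

/-! ### Nondegenerate tiles with integer sides -/

theorem affineIndependent_V (p : (Bool × Bool) × ℕ) : AffineIndependent ℝ (V p) := by
  obtain ⟨q, n⟩ := p
  rw [affineIndependent_iff_not_collinear, collinear_iff_exists_forall_eq_smul_vadd]
  rintro ⟨p0, v, h⟩
  obtain ⟨r0, e0⟩ := h _ ⟨0, rfl⟩
  obtain ⟨r1, e1⟩ := h _ ⟨1, rfl⟩
  obtain ⟨r2, e2⟩ := h _ ⟨2, rfl⟩
  change Q q n = r0 • v + p0 at e0
  change Q q (n + 1) = r1 • v + p0 at e1
  change Q q (n + 2) = r2 • v + p0 at e2
  have key : ∀ (m : ℕ) (r : ℝ), ca q m (r • v + p0) = r * ca q m v + ca q m p0 := by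
    intro m r
    have := ca_comb q m v p0 r 1
    rw [one_smul] at this
    rw [this]; ring
  have a0 := congrArg (ca q n) e0
  have a1 := congrArg (ca q n) e1
  have a2 := congrArg (ca q n) e2
  have b0 := congrArg (ca q (n + 1)) e0
  have b1 := congrArg (ca q (n + 1)) e1
  have b2 := congrArg (ca q (n + 1)) e2
  rw [key] at a0 a1 a2 b0 b1 b2
  rw [ca_Q] at a0 b1
  rw [ca_Q_prev] at a1
  rw [ca_Q_two] at a2
  rw [ca_Q_succ] at b0
  rw [ca_Q_two'] at b2
  have l1 := y_lt' q n
  have l2 := y_lt' q (n + 1)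
  have p1 := y_pos q n
  -- the determinant
  have hdet : ((y (start q) (n + 2) : ℝ) - y (start q) n) * y (start q) (n + 1) = 0 := by
    have f1 : (y (start q) (n + 2) : ℝ) - y (start q) n = (r2 - r0) * ca q n v := by
      rw [a0, a2]; ring
    have f2 : (y (start q) (n + 1) : ℝ) = (r1 - r0) * ca q (n + 1) v := by
      linear_combination b1 - b0
    have f3 : (r2 - r0) * ca q (n + 1) v = 0 := by linear_combination b0 - b2
    rw [f1, f2]
    linear_combination (ca q n v * (r1 - r0)) * f3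
  have : 0 < ((y (start q) (n + 2) : ℝ) - y (start q) n) * y (start q) (n + 1) :=
    mul_pos (by linarith) p1
  linarith

theorem dist_succ (q : Bool × Bool) (n : ℕ) :
    dist (Q q n) (Q q (n + 1)) ^ 2 =
      (y (start q) n : ℝ) ^ 2 + (y (start q) (n + 1) : ℝ) ^ 2 := by
  rw [dist_ca q n, ca_Q, ca_Q_prev, ca_Q_succ, ca_Q]; ring

theorem dist_two (q : Bool × Bool) (n : ℕ) :
    dist (Q q n) (Q q (n + 2)) = (y (start q) (n + 2) : ℝ) - y (start q) n := by
  have h : dist (Q q n) (Q q (n + 2)) ^ 2 = ((y (start q) (n + 2) : ℝ) - y (start q) n) ^ 2 := by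
    rw [dist_ca q n, ca_Q, ca_Q_two, ca_Q_succ, ca_Q_two']; ring
  have l1 := y_lt' q n
  have l2 := y_lt' q (n + 1)
  exact (pow_left_inj₀ dist_nonneg (by linarith) (by norm_num)).1 h

theorem int_succ (q : Bool × Bool) (n : ℕ) : ∃ m : ℕ, 0 < m ∧ dist (Q q n) (Q q (n + 1)) = m := by
  obtain ⟨c, hc⟩ := y_hyp (G_start q) n
  have h : dist (Q q n) (Q q (n + 1)) ^ 2 = (c : ℝ) ^ 2 := by
    rw [dist_succ]; exact_mod_cast hc
  have h1 : dist (Q q n) (Q q (n + 1)) = c :=
    (pow_left_inj₀ dist_nonneg (Nat.cast_nonneg _) (by norm_num)).1 h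
  refine ⟨c, ?_, h1⟩
  rcases Nat.eq_zero_or_pos c with h0 | h0
  · exfalso
    rw [h0] at hc
    have := y_lt (G_start q) n
    have : 0 < (y (start q) (n + 1)) ^ 2 := pow_pos (by omega) 2
    omega
  · exact h0

theorem int_two (q : Bool × Bool) (n : ℕ) : ∃ m : ℕ, 0 < m ∧ dist (Q q n) (Q q (n + 2)) = m := by
  have l1 := y_lt (G_start q) n
  have l2 := y_lt (G_start q) (n + 1)
  have l3 : y (start q) n < y (start q) (n + 2) := lt_trans l1 l2
  refine ⟨y (start q) (n + 2) - y (start q) n, by omega, ?_⟩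
  rw [dist_two, Nat.cast_sub l3.le]

theorem int_V (p : (Bool × Bool) × ℕ) (a b : Fin 3) (h : a ≠ b) :
    ∃ m : ℕ, 0 < m ∧ dist (V p a) (V p b) = m := by
  obtain ⟨q, n⟩ := p
  have h01 := int_succ q n
  have h12 := int_succ q (n + 1)
  have h02 := int_two q n
  fin_cases a <;> fin_cases b
  · exact absurd rfl h
  · exact h01
  · exact h02
  · simpa [V, dist_comm] using h01
  · exact absurd rfl h
  · exact h12
  · simpa [V, dist_comm] using h02
  · simpa [V, dist_comm] using h12
  · exact absurd rfl h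

/-! ### Covering -/

theorem quad_cover (q : Bool × Bool) (z : Plane) (h1 : 0 ≤ sg q.1 * z 0) (h2 : 0 ≤ sg q.2 * z 1) :
    ∃ n, z ∈ reg q n := by
  have hca : ∀ n, 0 ≤ ca q n z := by
    intro n
    unfold ca
    split_ifs <;> assumption
  have hex : ∃ n, psi q (n + 1) z ≤ 0 := by
    obtain ⟨N, hN⟩ := exists_nat_ge (2 * (sg q.1 * z 0 + sg q.2 * z 1))
    refine ⟨N, ?_⟩
    have e1 : (N : ℝ) ≤ y (start q) (N + 1) := by
      have := le_y (G_start q) (N + 1)
      have h : N ≤ y (start q) (N + 1) := by omega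
      exact_mod_cast h
    have e2 : (N : ℝ) ≤ y (start q) (N + 2) := by
      have := le_y (G_start q) (N + 2)
      have h : N ≤ y (start q) (N + 2) := by omega
      exact_mod_cast h
    have c1 : 2 * ca q (N + 1) z ≤ N := by
      unfold ca
      split_ifs <;> linarith
    have c2 : 2 * ca q (N + 1 + 1) z ≤ N := by
      unfold ca
      split_ifs <;> linarith
    have p1 := y_nonneg q (N + 1)
    have p2 := y_nonneg q (N + 2)
    unfold psi
    have m1 := mul_le_mul_of_nonneg_right (le_trans c1 e1) p2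
    have m2 := mul_le_mul_of_nonneg_right (le_trans c2 e2) p1
    change ca q (N + 1) z * (y (start q) (N + 2) : ℝ) + ca q (N + 1 + 1) z * y (start q) (N + 1) -
      y (start q) (N + 1) * y (start q) (N + 2) ≤ 0
    nlinarith
  classical
  let n := Nat.find hex
  have hn : psi q (n + 1) z ≤ 0 := Nat.find_spec hex
  refine ⟨n, hca n, hca (n + 1), ?_, hn⟩
  rcases Nat.eq_zero_or_pos n with h0 | h0
  · rw [h0]
    unfold psi
    rw [y_zero]
    have := mul_nonneg (hca 0) (y_nonneg q (0 + 1))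
    simpa using this
  · have h3 := Nat.find_min hex (m := n - 1) (by omega)
    rw [not_le, Nat.sub_add_cancel h0] at h3
    exact h3.le

theorem cover : (⋃ p, tri (V p)) = Set.univ := by
  rw [Set.eq_univ_iff_forall]
  intro z
  rw [Set.mem_iUnion]
  have hq : ∃ q : Bool × Bool, 0 ≤ sg q.1 * z 0 ∧ 0 ≤ sg q.2 * z 1 := by
    rcases le_total 0 (z 0) with h0 | h0 <;> rcases le_total 0 (z 1) with h1 | h1
    · exact ⟨(false, false), by simpa [sg] using h0, by simpa [sg] using h1⟩
    · exact ⟨(false, true), by simpa [sg] using h0, by simpa [sg] using h1⟩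
    · exact ⟨(true, false), by simpa [sg] using h0, by simpa [sg] using h1⟩
    · exact ⟨(true, true), by simpa [sg] using h0, by simpa [sg] using h1⟩
  obtain ⟨q, h0, h1⟩ := hq
  obtain ⟨n, hn⟩ := quad_cover q z h0 h1
  exact ⟨(q, n), by rw [tri_eq]; exact hn⟩

/-! ### Disjoint interiors -/

theorem interior_line (c0 c1 d : ℝ) (h : c0 ≠ 0 ∨ c1 ≠ 0) :
    interior {z : Plane | c0 * z 0 + c1 * z 1 = d} = ∅ := by
  rw [Set.eq_empty_iff_forall_notMem]
  intro z hz
  rw [mem_interior_iff_mem_nhds, Metric.mem_nhds_iff] at hz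
  obtain ⟨ε, hε, hb⟩ := hz
  have hz0 : c0 * z 0 + c1 * z 1 = d := hb (Metric.mem_ball_self hε)
  have move : ∀ i : Fin 2, z + EuclideanSpace.single i (ε / 2) ∈ Metric.ball z ε := by
    intro i
    rw [Metric.mem_ball, dist_eq_norm]
    rw [add_sub_cancel_left, PiLp.norm_single, Real.norm_eq_abs]
    rw [abs_of_pos (by linarith)]
    linarith
  rcases h with h | h
  · have h2 := hb (move 0)
    simp only [Set.mem_ofPred_eq, PiLp.add_apply, PiLp.single_apply] at h2
    simp at h2
    apply h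
    have : c0 * (ε / 2) = 0 := by linarith
    rcases mul_eq_zero.1 this with h3 | h3
    · exact h3
    · linarith
  · have h2 := hb (move 1)
    simp only [Set.mem_ofPred_eq, PiLp.add_apply, PiLp.single_apply] at h2
    simp at h2
    apply h
    have : c1 * (ε / 2) = 0 := by linarith
    rcases mul_eq_zero.1 this with h3 | h3
    · exact h3
    · linarith

theorem psi_mono_step (q : Bool × Bool) (k : ℕ) (z : Plane) (ha : 0 ≤ ca q k z)
    (h : 0 ≤ psi q (k + 1) z) : 0 ≤ psi q k z := by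
  unfold psi at h ⊢
  rw [ca_add_two] at h
  have l1 := y_lt' q k
  have l2 := y_lt' q (k + 1)
  have p0 := y_nonneg q k
  have p1 := y_pos q k
  have hA := mul_nonneg ha p1.le
  rcases le_total (ca q (k + 1) z) (y (start q) (k + 1)) with hb | hb
  · have e : 0 ≤ ((y (start q) (k + 1 + 1) : ℝ) - y (start q) k) *
        ((y (start q) (k + 1) : ℝ) - ca q (k + 1) z) :=
      mul_nonneg (by linarith) (by linarith)
    nlinarith
  · have e : 0 ≤ (y (start q) k : ℝ) * (ca q (k + 1) z - y (start q) (k + 1)) :=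
      mul_nonneg p0 (by linarith)
    nlinarith

theorem psi_mono (q : Bool × Bool) (z : Plane) (ha : ∀ k, 0 ≤ ca q k z) (k m : ℕ)
    (h : 0 ≤ psi q (k + m) z) : 0 ≤ psi q k z := by
  induction m with
  | zero => exact h
  | succ m ih => exact ih (psi_mono_step q (k + m) z (ha _) h)

theorem ca_of_reg {q : Bool × Bool} {n : ℕ} {z : Plane} (h : z ∈ reg q n) :
    0 ≤ sg q.1 * z 0 ∧ 0 ≤ sg q.2 * z 1 := by
  obtain ⟨h1, h2, -, -⟩ := h
  unfold ca at h1 h2
  rcases Nat.mod_two_eq_zero_or_one n with hn | hn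
  · have hn' : ¬ (n + 1) % 2 = 0 := by omega
    rw [if_pos hn] at h1
    rw [if_neg hn'] at h2
    exact ⟨h2, h1⟩
  · have hn' : (n + 1) % 2 = 0 := by omega
    have hn2 : ¬ n % 2 = 0 := by omega
    rw [if_neg hn2] at h1
    rw [if_pos hn'] at h2
    exact ⟨h1, h2⟩

theorem psi_line (q : Bool × Bool) (n : ℕ) : ∃ c0 c1 d : ℝ, (c0 ≠ 0 ∨ c1 ≠ 0) ∧
    ∀ z : Plane, psi q n z = 0 → c0 * z 0 + c1 * z 1 = d := by
  have p1 := y_pos q n
  have s1 : sg q.1 ≠ 0 := by rcases sg_cases q.1 with h | h <;> rw [h] <;> norm_num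
  have s2 : sg q.2 ≠ 0 := by rcases sg_cases q.2 with h | h <;> rw [h] <;> norm_num
  rcases Nat.mod_two_eq_zero_or_one n with hn | hn
  · have hn' : ¬ (n + 1) % 2 = 0 := by omega
    refine ⟨sg q.1 * y (start q) n, sg q.2 * y (start q) (n + 1),
      y (start q) n * y (start q) (n + 1), Or.inr (mul_ne_zero s2 p1.ne'), ?_⟩
    intro z hz
    unfold psi ca at hz
    rw [if_pos hn, if_neg hn'] at hz
    linarith
  · have hn' : (n + 1) % 2 = 0 := by omega
    have hn2 : ¬ n % 2 = 0 := by omega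
    refine ⟨sg q.1 * y (start q) (n + 1), sg q.2 * y (start q) n,
      y (start q) n * y (start q) (n + 1), Or.inl (mul_ne_zero s1 p1.ne'), ?_⟩
    intro z hz
    unfold psi ca at hz
    rw [if_neg hn2, if_pos hn'] at hz
    linarith

theorem disj_of_lt (q : Bool × Bool) {n m : ℕ} (h : n < m) :
    interior (reg q n ∩ reg q m) = ∅ := by
  obtain ⟨c0, c1, d, hc, hl⟩ := psi_line q (n + 1)
  apply Set.eq_empty_of_subset_empty
  rw [← interior_line c0 c1 d hc]
  apply interior_mono
  rintro z ⟨hz, hz'⟩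
  apply hl
  apply le_antisymm hz.2.2.2
  obtain ⟨k, rfl⟩ : ∃ k, m = n + 1 + k := ⟨m - (n + 1), by omega⟩
  apply psi_mono q z _ (n + 1) k hz'.2.2.1
  intro j
  obtain ⟨g1, g2⟩ := ca_of_reg hz
  unfold ca
  split_ifs <;> assumption

theorem disj {p p' : (Bool × Bool) × ℕ} (h : p ≠ p') :
    interior (reg p.1 p.2 ∩ reg p'.1 p'.2) = ∅ := by
  obtain ⟨q, n⟩ := p
  obtain ⟨q', n'⟩ := p'
  by_cases hq : q = q'
  · subst hq
    have hn : n ≠ n' := fun e => h (by rw [e])
    rcases lt_or_gt_of_ne hn with hlt | hlt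
    · exact disj_of_lt q hlt
    · rw [Set.inter_comm]; exact disj_of_lt q hlt
  · have hor : q.1 ≠ q'.1 ∨ q.2 ≠ q'.2 := by
      by_contra hcon
      rw [not_or, not_not, not_not] at hcon
      exact hq (Prod.ext hcon.1 hcon.2)
    have hsg : ∀ (a b : Bool) (t : ℝ), a ≠ b → 0 ≤ sg a * t → 0 ≤ sg b * t → t = 0 := by
      intro a b t hab h1 h2
      cases a <;> cases b <;> simp [sg] at hab h1 h2 <;> linarith
    apply Set.eq_empty_of_subset_empty
    rcases hor with h1 | h1
    · rw [← interior_line 1 0 0 (Or.inl one_ne_zero)]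
      apply interior_mono
      rintro z ⟨hz, hz'⟩
      have := hsg _ _ _ h1 (ca_of_reg hz).1 (ca_of_reg hz').1
      change 1 * z 0 + 0 * z 1 = 0
      rw [this]; ring
    · rw [← interior_line 0 1 0 (Or.inr one_ne_zero)]
      apply interior_mono
      rintro z ⟨hz, hz'⟩
      have := hsg _ _ _ h1 (ca_of_reg hz).2 (ca_of_reg hz').2
      change 0 * z 0 + 1 * z 1 = 0
      rw [this]; ring

/-! ### Non-similarity -/

/-- The side lengths of a tile. -/
theorem sides (q : Bool × Bool) (n : ℕ) :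
    ∃ A B C : ℝ, 0 < A ∧ 0 < B ∧ 0 < C ∧ A < C ∧ B < C ∧
      dist (V (q, n) 0) (V (q, n) 1) = A ∧ dist (V (q, n) 0) (V (q, n) 2) = B ∧
      dist (V (q, n) 1) (V (q, n) 2) = C ∧
      A ^ 2 = (y (start q) n : ℝ) ^ 2 + (y (start q) (n + 1) : ℝ) ^ 2 ∧
      B = (y (start q) (n + 2) : ℝ) - y (start q) n ∧
      C ^ 2 = A ^ 2 + B ^ 2 + 2 * y (start q) n * B := by
  have l1 := y_lt' q n
  have l2 := y_lt' q (n + 1)
  have p0 := y_nonneg q n
  have p1 := y_pos q n
  have hA : dist (V (q, n) 0) (V (q, n) 1) ^ 2 =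
      (y (start q) n : ℝ) ^ 2 + (y (start q) (n + 1) : ℝ) ^ 2 := dist_succ q n
  have hB : dist (V (q, n) 0) (V (q, n) 2) = (y (start q) (n + 2) : ℝ) - y (start q) n :=
    dist_two q n
  have hC : dist (V (q, n) 1) (V (q, n) 2) ^ 2 =
      (y (start q) (n + 1) : ℝ) ^ 2 + (y (start q) (n + 1 + 1) : ℝ) ^ 2 := dist_succ q (n + 1)
  have l3 : (y (start q) (n + 1) : ℝ) < y (start q) (n + 2) := l2
  have hBpos : 0 < dist (V (q, n) 0) (V (q, n) 2) := by rw [hB]; linarith
  have hA0 : 0 ≤ dist (V (q, n) 0) (V (q, n) 1) := dist_nonneg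
  have hC0 : 0 ≤ dist (V (q, n) 1) (V (q, n) 2) := dist_nonneg
  have hApos : 0 < dist (V (q, n) 0) (V (q, n) 1) := by
    rcases hA0.lt_or_eq with h | h
    · exact h
    · exfalso
      rw [← h] at hA
      nlinarith
  have hCpos : 0 < dist (V (q, n) 1) (V (q, n) 2) := by
    rcases hC0.lt_or_eq with h | h
    · exact h
    · exfalso
      rw [← h] at hC
      nlinarith
  have hC2 : dist (V (q, n) 1) (V (q, n) 2) ^ 2 = dist (V (q, n) 0) (V (q, n) 1) ^ 2 +
      dist (V (q, n) 0) (V (q, n) 2) ^ 2 +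
      2 * y (start q) n * dist (V (q, n) 0) (V (q, n) 2) := by
    rw [hC, hA, hB]; ring
  refine ⟨_, _, _, hApos, hBpos, hCpos, ?_, ?_, rfl, rfl, rfl, hA, hB, hC2⟩
  · apply lt_of_pow_lt_pow_left₀ 2 hC0
    rw [hC2]
    have := mul_nonneg (mul_nonneg (by norm_num : (0 : ℝ) ≤ 2) p0) hBpos.le
    nlinarith
  · apply lt_of_pow_lt_pow_left₀ 2 hC0
    rw [hC2]
    have := mul_nonneg (mul_nonneg (by norm_num : (0 : ℝ) ≤ 2) p0) hBpos.le
    nlinarith

/-- A matching of the sides of two triangles whose longest sides are opposite to the first vertex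
matches the longest sides. -/
theorem match_sides {W W' : Fin 3 → Plane} {A B C A' B' C' : ℝ}
    (hAC : A < C) (hBC : B < C) (hAC' : A' < C') (hBC' : B' < C')
    (e1 : dist (W 0) (W 1) = A) (e2 : dist (W 0) (W 2) = B) (e3 : dist (W 1) (W 2) = C)
    (e1' : dist (W' 0) (W' 1) = A') (e2' : dist (W' 0) (W' 2) = B') (e3' : dist (W' 1) (W' 2) = C')
    (h : SimilarTri W W') : ∃ r : ℝ, 0 < r ∧ C' = r * C ∧
      ((A' = r * A ∧ B' = r * B) ∨ (A' = r * B ∧ B' = r * A)) := by
  obtain ⟨σ, r, hr, hσ⟩ := h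
  have h01 := hσ 0 1
  have h02 := hσ 0 2
  have h12 := hσ 1 2
  rw [e1] at h01
  rw [e2] at h02
  rw [e3] at h12
  have e1s : dist (W' 1) (W' 0) = A' := by rw [dist_comm]; exact e1'
  have e2s : dist (W' 2) (W' 0) = B' := by rw [dist_comm]; exact e2'
  have e3s : dist (W' 2) (W' 1) = C' := by rw [dist_comm]; exact e3'
  have n01 : σ 0 ≠ σ 1 := fun e => absurd (σ.injective e) (by decide)
  have n02 : σ 0 ≠ σ 2 := fun e => absurd (σ.injective e) (by decide)
  have n12 : σ 1 ≠ σ 2 := fun e => absurd (σ.injective e) (by decide)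
  have r1 : r * A < r * C := mul_lt_mul_of_pos_left hAC hr
  have r2 : r * B < r * C := mul_lt_mul_of_pos_left hBC hr
  generalize σ 0 = a at *
  generalize σ 1 = b at *
  generalize σ 2 = c at *
  fin_cases a <;> fin_cases b <;> fin_cases c <;>
    simp only [Fin.zero_eta, Fin.mk_one, Fin.reduceFinMk, ne_eq, not_true_eq_false] at * <;>
    first
    | exact absurd rfl n01
    | exact absurd rfl n02
    | exact absurd rfl n12
    | (rw [e1'] at h01; rw [e2'] at h02; rw [e3'] at h12
       exact ⟨r, hr, h12, Or.inl ⟨h01, h02⟩⟩)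
    | (rw [e2'] at h01; rw [e1'] at h02; rw [e3s] at h12
       exact ⟨r, hr, h12, Or.inr ⟨h02, h01⟩⟩)
    | (exfalso; rw [e1s] at h01; rw [e3'] at h02; rw [e2'] at h12; linarith)
    | (exfalso; rw [e3'] at h01; rw [e1s] at h02; rw [e2s] at h12; linarith)
    | (exfalso; rw [e2s] at h01; rw [e3s] at h02; rw [e1'] at h12; linarith)
    | (exfalso; rw [e3s] at h01; rw [e2s] at h02; rw [e1s] at h12; linarith)

theorem not_similar {p p' : (Bool × Bool) × ℕ} (h : SimilarTri (V p) (V p')) : p = p' := by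
  obtain ⟨q, n⟩ := p
  obtain ⟨q', n'⟩ := p'
  obtain ⟨A, B, C, hA, hB, hC, hAC, hBC, e1, e2, e3, f1, f2, f3⟩ := sides q n
  obtain ⟨A', B', C', hA', hB', hC', hAC', hBC', e1', e2', e3', f1', f2', f3'⟩ := sides q' n'
  obtain ⟨r, hr, hC1, hAB⟩ := match_sides hAC hBC hAC' hBC' e1 e2 e3 e1' e2' e3' h
  have p0 := y_nonneg q n
  have p0' := y_nonneg q' n'
  have p1 := y_pos q n
  have p1' := y_pos q' n'
  -- the cosine of the angle opposite to the longest side
  have hprod : A' * B' = r ^ 2 * (A * B) := by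
    rcases hAB with ⟨g1, g2⟩ | ⟨g1, g2⟩ <;> rw [g1, g2] <;> ring
  have hsum : A' ^ 2 + B' ^ 2 = r ^ 2 * (A ^ 2 + B ^ 2) := by
    rcases hAB with ⟨g1, g2⟩ | ⟨g1, g2⟩ <;> rw [g1, g2] <;> ring
  have hy : (y (start q') n' : ℝ) * B' = r ^ 2 * (y (start q) n * B) := by
    have : C' ^ 2 = r ^ 2 * C ^ 2 := by rw [hC1]; ring
    rw [f3, f3'] at this
    linarith
  have hcos : (y (start q') n' : ℝ) * A = y (start q) n * A' := by
    have hne : B * (r ^ 2 * B) ≠ 0 := by positivity
    have hBB : B' ≠ 0 := hB'.ne'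
    have : ((y (start q') n' : ℝ) * A - y (start q) n * A') * (B' * (r ^ 2 * B)) = 0 := by
      linear_combination (A * (r ^ 2 * B)) * hy - (r ^ 2 * (y (start q) n * B)) * hprod
    rcases mul_eq_zero.1 this with h0 | h0
    · linarith
    · exfalso
      have : 0 < B' * (r ^ 2 * B) := by positivity
      linarith
  have hsq : ((y (start q') n' : ℝ) * y (start q) (n + 1)) ^ 2 =
      (y (start q) n * y (start q') (n' + 1)) ^ 2 := by
    have := congrArg (fun t : ℝ => t ^ 2) hcos
    simp only [mul_pow] at this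
    rw [f1, f1'] at this
    rw [mul_pow, mul_pow]
    linarith
  have hmul : (y (start q') n' : ℝ) * y (start q) (n + 1) =
      y (start q) n * y (start q') (n' + 1) :=
    (pow_left_inj₀ (by positivity) (by positivity) (by norm_num)).1 hsq
  have hmulN : y (start q') n' * y (start q) (n + 1) = y (start q) n * y (start q') (n' + 1) := by
    exact_mod_cast hmul
  have pos1 : ∀ (q : Bool × Bool) (n : ℕ), 0 < y (start q) (n + 1) := fun q n => by
    exact_mod_cast y_pos q n
  cases n with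
  | zero =>
    cases n' with
    | zero =>
      -- two right triangles
      rw [y_zero] at f1 f2 f1' f2'
      have a1 : A = start q := by
        have : A ^ 2 = (start q : ℝ) ^ 2 := by
          rw [f1, y_one]; push_cast; ring
        exact (pow_left_inj₀ hA.le (Nat.cast_nonneg _) (by norm_num)).1 this
      have a1' : A' = start q' := by
        have : A' ^ 2 = (start q' : ℝ) ^ 2 := by
          rw [f1', y_one]; push_cast; ring
        exact (pow_left_inj₀ hA'.le (Nat.cast_nonneg _) (by norm_num)).1 this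
      have b1 : B = f (start q) := by rw [f2]; simp [y_succ, y_one]
      have b1' : B' = f (start q') := by rw [f2']; simp [y_succ, y_one]
      have lt1 : A < B := by
        rw [a1, b1]; exact_mod_cast lt_f (G_start q)
      have lt1' : A' < B' := by
        rw [a1', b1']; exact_mod_cast lt_f (G_start q')
      have hfin : A' * B = A * B' := by
        rcases hAB with ⟨g1, g2⟩ | ⟨g1, g2⟩
        · rw [g1, g2]; ring
        · exfalso
          have : r * A < r * B := mul_lt_mul_of_pos_left lt1 hr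
          linarith
      rw [a1, b1, a1', b1'] at hfin
      have hN : start q' * f (start q) = start q * f (start q') := by exact_mod_cast hfin
      have := ratio_inj (G_start q) (G_start q') hN
      rw [start_inj this]
    | succ m =>
      exfalso
      rw [y_zero, zero_mul] at hmulN
      have := mul_pos (pos1 q' m) (pos1 q 0)
      omega
  | succ m =>
    cases n' with
    | zero =>
      exfalso
      rw [y_zero, zero_mul] at hmulN
      have := mul_pos (pos1 q m) (pos1 q' 0)
      omega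
    | succ m' =>
      rw [y_succ, y_succ] at hmulN
      have h1 := ratio_inj (G_y (G_start q) m) (G_y (G_start q') m') hmulN
      obtain ⟨h2, h3⟩ := orbit_inj (G_start q) (G_start q') (start_lt q) (start_lt q') m m' h1
      rw [start_inj h2, h3]

/-- There is a tiling of the plane by nondegenerate triangles with integer sides, no two of which
are similar. -/
theorem result : ∃ (ι : Type) (T : ι → Fin 3 → Plane),
    (∀ i, AffineIndependent ℝ (T i)) ∧
    (⋃ i, tri (T i)) = Set.univ ∧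
    (∀ i j, i ≠ j → Disjoint (interior (tri (T i))) (interior (tri (T j)))) ∧
    (∀ i a b, a ≠ b → ∃ n : ℕ, 0 < n ∧ dist (T i a) (T i b) = n) ∧
    (∀ i j, i ≠ j → ¬ SimilarTri (T i) (T j)) := by
  refine ⟨(Bool × Bool) × ℕ, V, affineIndependent_V, cover, ?_, int_V, ?_⟩
  · intro p p' h
    rw [Set.disjoint_iff_inter_eq_empty, ← interior_inter]
    have := disj h
    rwa [← tri_eq, ← tri_eq] at this
  · intro p p' h hs
    exact h (not_similar hs)

end Pool.Agent.Results.MP_0d7d47_co.IntegerSided
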